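import Mathlib
import Pool.Agent.H52.Cont.Assemble

set_option autoImplicit false

open MeasureTheory

namespace Pool.Agent.Results.MP_617eb0_gt.ExplicitConstant

/-- A `d`-polytope: a convex hull of finitely many points with nonempty interior. -/
def IsPolytope {d : ℕ} (P : Set (EuclideanSpace ℝ (Fin d))) : Prop :=
  (∃ S : Finset (EuclideanSpace ℝ (Fin d)), P = convexHull ℝ (S : Set (EuclideanSpace ℝ (Fin d)))) ∧
    (interior P).Nonempty

/-- The dimension of a set: the dimension of its affine hull. -/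
noncomputable def dimension {d : ℕ} (F : Set (EuclideanSpace ℝ (Fin d))) : ℕ :=
  Module.finrank ℝ (vectorSpan ℝ F)

/-- `F` is a `k`-dimensional face of `P`: a nonempty exposed face of dimension `k`. -/
def IsFace {d : ℕ} (k : ℕ) (P F : Set (EuclideanSpace ℝ (Fin d))) : Prop :=
  IsExposed ℝ P F ∧ F.Nonempty ∧ dimension F = k

/-- The `k`-dimensional volume: the `k`-dimensional Hausdorff measure, normalised to agree with
Lebesgue measure on `k`-dimensional Euclidean space. -/
noncomputable def vol {d : ℕ} (k : ℕ) (F : Set (EuclideanSpace ℝ (Fin d))) : ENNReal :=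
  Measure.euclideanHausdorffMeasure k F

/-- The `k`-content of a polytope: the sum, over its faces of dimension `k`, of the
`k`-dimensional volume of the face. -/
noncomputable def faceContent {d : ℕ} (k : ℕ) (P : Set (EuclideanSpace ℝ (Fin d))) : ENNReal :=
  ∑' F : {F : Set (EuclideanSpace ℝ (Fin d)) // IsFace k P F}, vol k F.1

/-- The `k`-content of a convex body: the infimum, over all sequences of `d`-polytopes tending to it
in the Hausdorff metric, of the lower limits of their `k`-contents. -/
noncomputable def content {d : ℕ} (k : ℕ) (K : Set (EuclideanSpace ℝ (Fin d))) : ENNReal :=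
  ⨅ (P : ℕ → Set (EuclideanSpace ℝ (Fin d)))
    (_ : (∀ n, IsPolytope (P n)) ∧
      Filter.Tendsto (fun n => Metric.hausdorffEDist (P n) K) Filter.atTop (nhds (0 : ENNReal))),
    Filter.liminf (fun n => faceContent k (P n)) Filter.atTop

/-- A convex body of dimension `d`: a compact convex set in `d`-space with nonempty interior. -/
def IsBody {d : ℕ} (K : Set (EuclideanSpace ℝ (Fin d))) : Prop :=
  Convex ℝ K ∧ IsCompact K ∧ (interior K).Nonempty

/-- The explicit constant: the product of `(m + 1) ^ (1 / m)` over `k ≤ m < s`. -/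
noncomputable def bound (k s : ℕ) : ENNReal :=
  ENNReal.ofReal (∏ m ∈ Finset.Ico k s, ((m : ℝ) + 1) ^ ((1 : ℝ) / (m : ℝ)))

/-- The least constant in the bound of the `s`-content by the `k`-content over all convex bodies of
dimension `d` whose `k`-content is finite (and infinity if no finite constant works). -/
noncomputable def gammaConst (d k s : ℕ) : ENNReal :=
  ⨅ (γ : NNReal) (_ : ∀ K : Set (EuclideanSpace ℝ (Fin d)), IsBody K → content k K < ⊤ →
      content s K ^ ((1 : ℝ) / (s : ℝ)) ≤ (γ : ENNReal) * content k K ^ ((1 : ℝ) / (k : ℝ))),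
    (γ : ENNReal)

private lemma faceContent_convexHull {d : ℕ} (S : Finset (EuclideanSpace ℝ (Fin d))) (j : ℕ) :
    faceContent j (convexHull ℝ (S : Set (EuclideanSpace ℝ (Fin d)))) = Pool.Agent.H52.Cont.Zv S j := by
  let e : {F : Set (EuclideanSpace ℝ (Fin d)) //
            IsFace j (convexHull ℝ (S : Set (EuclideanSpace ℝ (Fin d)))) F} ≃
        Pool.Agent.H52.Poly.FaceT S j :=
    Equiv.subtypeEquivRight (fun F => Iff.rfl)
  unfold faceContent
  rw [← e.symm.tsum_eq, tsum_fintype]
  rfl

private lemma polytope_le {d k s : ℕ} (hk : 1 ≤ k) (hks : k ≤ s)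
    (P : Set (EuclideanSpace ℝ (Fin d))) (hP : IsPolytope P) :
    faceContent s P ^ ((1 : ℝ) / (s : ℝ)) ≤
      (Pool.Agent.H52.Cont.cst k s : ENNReal) * faceContent k P ^ ((1 : ℝ) / (k : ℝ)) := by
  obtain ⟨⟨S, rfl⟩, _⟩ := hP
  rw [faceContent_convexHull, faceContent_convexHull]
  exact Pool.Agent.H52.Cont.Zv_le k hk s hks S

private lemma body_le {d k s : ℕ} (hk : 1 ≤ k) (hks : k ≤ s)
    (K : Set (EuclideanSpace ℝ (Fin d))) :
    content s K ^ ((1 : ℝ) / (s : ℝ)) ≤
      (Pool.Agent.H52.Cont.cst k s : ENNReal) * content k K ^ ((1 : ℝ) / (k : ℝ)) := by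
  have hk0 : (0 : ℝ) < k := by exact_mod_cast hk
  have hs0 : (0 : ℝ) < s := by
    have : 0 < s := by omega
    exact_mod_cast this
  set C : NNReal := Pool.Agent.H52.Cont.cst k s with hCdef
  have hCpos : (C : ENNReal) ≠ 0 := by
    have := Pool.Agent.H52.Cont.cst_pos k s
    rw [← hCdef] at this
    exact_mod_cast this.ne'
  have hCtop : (C : ENNReal) ≠ ⊤ := ENNReal.coe_ne_top
  have h1 : (content s K ^ ((1 : ℝ) / (s : ℝ)) / C) ^ (k : ℝ) ≤ content k K := by
    conv_rhs => unfold content
    apply le_iInf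
    intro P
    apply le_iInf
    intro hP
    set L := Filter.liminf (fun n => faceContent k (P n)) Filter.atTop with hL
    have h3 : content s K ≤ Filter.liminf (fun n => faceContent s (P n)) Filter.atTop :=
      iInf₂_le P hP
    set φ : ENNReal → ENNReal := fun x => ((C : ENNReal) * x ^ ((1 : ℝ) / (k : ℝ))) ^ (s : ℝ) with hφ
    have hmono : Monotone φ := by
      intro x y hxy
      simp only [hφ]
      gcongr
    have hcont : Continuous φ := by
      apply ENNReal.continuous_rpow_const.comp
      apply (ENNReal.continuous_const_mul hCtop).comp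
      exact ENNReal.continuous_rpow_const
    have h4 := hmono.map_liminf_of_continuousAt (F := Filter.atTop)
      (fun n : ℕ => faceContent k (P n)) hcont.continuousAt
    rw [← hL] at h4
    have h2 : content s K ≤ φ L := by
      refine h3.trans ?_
      rw [h4]
      refine Filter.liminf_le_liminf (Filter.Eventually.of_forall ?_)
      intro n
      simp only [Function.comp_apply, hφ]
      have h5 := polytope_le hk hks (P n) (hP.1 n)
      rw [← hCdef] at h5
      calc faceContent s (P n) = (faceContent s (P n) ^ ((1 : ℝ) / (s : ℝ))) ^ (s : ℝ) := by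
            rw [← ENNReal.rpow_mul]
            have : (1 : ℝ) / (s : ℝ) * s = 1 := by field_simp
            rw [this, ENNReal.rpow_one]
        _ ≤ _ := by gcongr
    have h6 : content s K ^ ((1 : ℝ) / (s : ℝ)) ≤ (C : ENNReal) * L ^ ((1 : ℝ) / (k : ℝ)) := by
      calc content s K ^ ((1 : ℝ) / (s : ℝ)) ≤ (φ L) ^ ((1 : ℝ) / (s : ℝ)) := by gcongr
        _ = _ := by
            simp only [hφ]
            rw [← ENNReal.rpow_mul]
            have : (s : ℝ) * ((1 : ℝ) / (s : ℝ)) = 1 := by field_simp
            rw [this, ENNReal.rpow_one]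
    have h7 : content s K ^ ((1 : ℝ) / (s : ℝ)) / C ≤ L ^ ((1 : ℝ) / (k : ℝ)) := by
      rw [ENNReal.div_le_iff hCpos hCtop, mul_comm]
      exact h6
    calc (content s K ^ ((1 : ℝ) / (s : ℝ)) / C) ^ (k : ℝ) ≤ (L ^ ((1 : ℝ) / (k : ℝ))) ^ (k : ℝ) := by
          gcongr
      _ = L := by
          rw [← ENNReal.rpow_mul]
          have : (1 : ℝ) / (k : ℝ) * k = 1 := by field_simp
          rw [this, ENNReal.rpow_one]
  have h8 : content s K ^ ((1 : ℝ) / (s : ℝ)) / C ≤ content k K ^ ((1 : ℝ) / (k : ℝ)) := by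
    calc content s K ^ ((1 : ℝ) / (s : ℝ)) / C
        = ((content s K ^ ((1 : ℝ) / (s : ℝ)) / C) ^ (k : ℝ)) ^ ((1 : ℝ) / (k : ℝ)) := by
          rw [← ENNReal.rpow_mul]
          have : (k : ℝ) * ((1 : ℝ) / (k : ℝ)) = 1 := by field_simp
          rw [this, ENNReal.rpow_one]
      _ ≤ _ := by gcongr
  rw [ENNReal.div_le_iff hCpos hCtop, mul_comm] at h8
  exact h8

private lemma cst_eq (k s : ℕ) : (Pool.Agent.H52.Cont.cst k s : ENNReal) = bound k s := by
  unfold bound
  rw [← ENNReal.ofReal_coe_nnreal]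
  congr 1
  unfold Pool.Agent.H52.Cont.cst
  rw [NNReal.coe_prod]
  apply Finset.prod_congr rfl
  intro m _
  rw [NNReal.coe_rpow]
  push_cast
  rfl

/-- For all `1 ≤ k ≤ s ≤ d` the constant between the `k`-content and the `s`-content is finite, and
at most the product of `(m + 1) ^ (1 / m)` over `k ≤ m < s`, which does not depend on `d`; the bound
with this constant holds for all `d`-polytopes and for all convex bodies of dimension `d`. -/
theorem result (d k s : ℕ) (hk : 1 ≤ k) (hks : k ≤ s) (_hsd : s ≤ d) :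
    (∀ P : Set (EuclideanSpace ℝ (Fin d)), IsPolytope P →
      faceContent s P ^ ((1 : ℝ) / (s : ℝ)) ≤ bound k s * faceContent k P ^ ((1 : ℝ) / (k : ℝ))) ∧
    (∀ K : Set (EuclideanSpace ℝ (Fin d)), IsBody K →
      content s K ^ ((1 : ℝ) / (s : ℝ)) ≤ bound k s * content k K ^ ((1 : ℝ) / (k : ℝ))) ∧
    gammaConst d k s ≤ bound k s ∧ gammaConst d k s < ⊤ := by
  rw [← cst_eq]
  have hg : gammaConst d k s ≤ (Pool.Agent.H52.Cont.cst k s : ENNReal) :=
    iInf₂_le (Pool.Agent.H52.Cont.cst k s) (fun K _ _ => body_le hk hks K)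
  exact ⟨fun P hP => polytope_le hk hks P hP, fun K _ => body_le hk hks K, hg,
    lt_of_le_of_lt hg ENNReal.coe_lt_top⟩

end Pool.Agent.Results.MP_617eb0_gt.ExplicitConstant
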